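import Pool.Agent.Helper44.TX.DK

/-! Denjoy-Koksma sums of monotone lifts of degree one along perturbed rotations. -/

open Finset MeasureTheory

namespace H44TX

/-- Monotone lifts of degree one. -/
structure IsLift (s : ℝ → ℝ) : Prop where
  mono : Monotone s
  add_one : ∀ t, s (t + 1) = s t + 1

theorem IsLift.periodic {s : ℝ → ℝ} (hs : IsLift s) : Function.Periodic (fun t => s t - t) 1 := by
  intro t
  simp only [hs.add_one]
  ring

theorem IsLift.intInt {s : ℝ → ℝ} (hs : IsLift s) (a b : ℝ) :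
    IntervalIntegrable s volume a b := hs.mono.intervalIntegrable

theorem IsLift.intInt' {s : ℝ → ℝ} (hs : IsLift s) (a b : ℝ) :
    IntervalIntegrable (fun t => s t - t) volume a b :=
  (hs.intInt a b).sub (continuous_id.intervalIntegrable _ _)

theorem lift_translates {s : ℝ → ℝ} (hs : IsLift s) (q : ℕ) (hq : 0 < q) (x : ℝ) :
    |∑ m ∈ range q, (s (x + m / q) - (x + m / q)) - q * ∫ t in (0 : ℝ)..1, (s t - t)| ≤ 1 := by
  have hq0 : (0 : ℝ) < q := by exact_mod_cast hq
  have hper : ∫ t in x..(x + 1), (s t - t) = ∫ t in (0 : ℝ)..1, (s t - t) := by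
    have := hs.periodic.intervalIntegral_add_eq x 0
    simpa using this
  have hsum : ∫ t in x..(x + 1), (s t - t)
      = ∑ m ∈ range q, ∫ t in (x + (m : ℕ) / q)..(x + ((m + 1 : ℕ) : ℝ) / q), (s t - t) := by
    rw [intervalIntegral.sum_integral_adjacent_intervals (a := fun m : ℕ => x + (m : ℝ) / q)
      (fun k _ => hs.intInt' _ _)]
    congr 1
    · simp
    · rw [div_self hq0.ne']
  -- on each piece compare with the end points
  have hterm : ∀ m ∈ range q,
      (s (x + m / q) - (x + m / q)) - q * ∫ t in (x + (m : ℕ) / q)..(x + ((m + 1 : ℕ) : ℝ) / q),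
        (s t - t) ≤ 1 / q ∧
      q * (∫ t in (x + (m : ℕ) / q)..(x + ((m + 1 : ℕ) : ℝ) / q), (s t - t))
        - (s (x + m / q) - (x + m / q)) ≤ s (x + ((m + 1 : ℕ) : ℝ) / q) - s (x + m / q) := by
    intro m _
    have hlen : (x + ((m + 1 : ℕ) : ℝ) / q) - (x + (m : ℝ) / q) = 1 / q := by
      push_cast; ring
    have hpos : (0 : ℝ) < 1 / q := by positivity
    have hle : x + (m : ℝ) / q ≤ x + ((m + 1 : ℕ) : ℝ) / q := by linarith
    have hc : ∀ c : ℝ, c = q * ∫ _t in (x + (m : ℕ) / q)..(x + ((m + 1 : ℕ) : ℝ) / q), c := by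
      intro c
      rw [intervalIntegral.integral_const, hlen, smul_eq_mul]; field_simp
    constructor
    · have h1 : ∫ _t in (x + (m : ℕ) / q)..(x + ((m + 1 : ℕ) : ℝ) / q),
          (s (x + m / q) - (x + m / q) - 1 / q)
          ≤ ∫ t in (x + (m : ℕ) / q)..(x + ((m + 1 : ℕ) : ℝ) / q), (s t - t) := by
        apply intervalIntegral.integral_mono_on hle (by simp) (hs.intInt' _ _)
        intro t ht
        have h2 := hs.mono ht.1
        have h3 := ht.2
        linarith
      have h4 := mul_le_mul_of_nonneg_left h1 hq0.le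
      rw [← hc] at h4
      linarith
    · have h1 : ∫ t in (x + (m : ℕ) / q)..(x + ((m + 1 : ℕ) : ℝ) / q), (s t - t)
          ≤ ∫ _t in (x + (m : ℕ) / q)..(x + ((m + 1 : ℕ) : ℝ) / q),
            (s (x + ((m + 1 : ℕ) : ℝ) / q) - (x + m / q)) := by
        apply intervalIntegral.integral_mono_on hle (hs.intInt' _ _) (by simp)
        intro t ht
        have h2 := hs.mono ht.2
        have h3 := ht.1
        linarith
      have h4 := mul_le_mul_of_nonneg_left h1 hq0.le
      rw [← hc] at h4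
      linarith
  rw [← hper, hsum, Finset.mul_sum, abs_le]
  constructor
  · have h1 : ∑ m ∈ range q, (q * (∫ t in (x + (m : ℕ) / q)..(x + ((m + 1 : ℕ) : ℝ) / q), (s t - t))
        - (s (x + m / q) - (x + m / q)))
        ≤ ∑ m ∈ range q, (s (x + ((m + 1 : ℕ) : ℝ) / q) - s (x + (m : ℕ) / q)) :=
      Finset.sum_le_sum fun m hm => (hterm m hm).2
    rw [Finset.sum_range_sub (fun m : ℕ => s (x + (m : ℝ) / q)), Finset.sum_sub_distrib,
      div_self hq0.ne', hs.add_one] at h1
    simp only [Nat.cast_zero, zero_div, add_zero] at h1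
    linarith
  · have h1 : ∑ m ∈ range q, ((s (x + m / q) - (x + m / q))
        - q * (∫ t in (x + (m : ℕ) / q)..(x + ((m + 1 : ℕ) : ℝ) / q), (s t - t)))
        ≤ ∑ m ∈ range q, (1 / (q : ℝ)) :=
      Finset.sum_le_sum fun m hm => (hterm m hm).1
    rw [Finset.sum_sub_distrib, Finset.sum_const, card_range, nsmul_eq_mul] at h1
    have h2 : (q : ℝ) * (1 / q) = 1 := by field_simp
    linarith

/-- Denjoy-Koksma for a monotone lift and a perturbed rotation by a rational. -/
theorem dk_lift_rat {s : ℝ → ℝ} (hs : IsLift s) (r : ℚ) (c : ℝ) (g : ℕ → ℝ)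
    (hg : ∀ m < r.den, |g m - g 0 - r * m| ≤ c / r.den) :
    |∑ m ∈ range r.den, (s (g m) - g m) - r.den * ∫ t in (0 : ℝ)..1, (s t - t)|
      ≤ 1 + 2 * c := by
  have hq0 : (0 : ℝ) < r.den := by exact_mod_cast r.pos
  have h4 : (r : ℝ) = r.num / r.den := Rat.cast_def r
  have key : ∀ y : ℝ, |∑ m ∈ range r.den, (s (y + r * m) - (y + r * m))
      - r.den * ∫ t in (0 : ℝ)..1, (s t - t)| ≤ 1 := by
    intro y
    have h3 := sum_coprime (fun t => s t - t) hs.periodic r.num r.den r.pos r.reduced y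
    rw [← h4] at h3
    rw [h3]
    exact lift_translates hs r.den r.pos y
  have hU := (abs_le.1 (key (g 0 + c / r.den))).2
  have hL := (abs_le.1 (key (g 0 - c / r.den))).1
  have h1 : ∑ m ∈ range r.den, (s (g m) - g m)
      ≤ ∑ m ∈ range r.den, ((s (g 0 + c / r.den + r * m) - (g 0 + c / r.den + r * m))
        + 2 * c / r.den) := by
    apply Finset.sum_le_sum
    intro m hm
    have h2 := abs_le.1 (hg m (Finset.mem_range.1 hm))
    have h3 : s (g m) ≤ s (g 0 + c / r.den + r * m) := hs.mono (by linarith [h2.2])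
    have h5 : 2 * c / r.den = c / r.den + c / r.den := by ring
    linarith [h2.1]
  have h2 : ∑ m ∈ range r.den, ((s (g 0 - c / r.den + r * m) - (g 0 - c / r.den + r * m))
        - 2 * c / r.den) ≤ ∑ m ∈ range r.den, (s (g m) - g m) := by
    apply Finset.sum_le_sum
    intro m hm
    have h2 := abs_le.1 (hg m (Finset.mem_range.1 hm))
    have h3 : s (g 0 - c / r.den + r * m) ≤ s (g m) := hs.mono (by linarith [h2.1])
    have h5 : 2 * c / r.den = c / r.den + c / r.den := by ring
    linarith [h2.2]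
  rw [Finset.sum_add_distrib, Finset.sum_const, card_range, nsmul_eq_mul] at h1
  rw [Finset.sum_sub_distrib, Finset.sum_const, card_range, nsmul_eq_mul] at h2
  have h5 : (r.den : ℝ) * (2 * c / r.den) = 2 * c := by field_simp
  rw [abs_le]
  constructor <;> linarith

/-- Uniform equidistribution of monotone lifts along perturbed irrational rotations; the
constants depend on nothing but the rotation number and the precision. -/
theorem dk_lift_irr {b : ℝ} (hb : Irrational b) {ε : ℝ} (hε : 0 < ε) :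
    ∃ Q : ℕ, 0 < Q ∧ ∃ τ : ℝ, 0 < τ ∧ ∀ s : ℝ → ℝ, IsLift s →
      ∀ g : ℕ → ℝ, (∀ m < Q, |g m - g 0 - b * m| ≤ τ) →
      |∑ m ∈ range Q, (s (g m) - g m) - Q * ∫ t in (0 : ℝ)..1, (s t - t)| ≤ ε * Q := by
  obtain ⟨N, hN⟩ := exists_nat_gt (5 / ε)
  obtain ⟨r, hr, hbr⟩ := exists_good_rat hb N
  have hq0 : (0 : ℝ) < r.den := by exact_mod_cast r.pos
  refine ⟨r.den, r.pos, 1 / r.den, by positivity, fun s hs g hg => ?_⟩
  have h1 := dk_lift_rat hs r 2 g (by
    intro m hm
    have hm' : (m : ℝ) ≤ r.den := by exact_mod_cast hm.le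
    have h2 := hg m hm
    have h3 : |(b - r) * m| ≤ 1 / r.den := by
      rw [abs_mul, abs_of_nonneg (by positivity : (0 : ℝ) ≤ m)]
      calc |b - r| * m ≤ (1 / (r.den : ℝ) ^ 2) * r.den :=
            mul_le_mul hbr hm' (by positivity) (by positivity)
        _ = 1 / r.den := by field_simp
    have h4 : g m - g 0 - r * m = (g m - g 0 - b * m) + (b - r) * m := by ring
    rw [h4]
    refine (abs_add_le _ _).trans ((add_le_add h2 h3).trans (le_of_eq ?_))
    ring)
  refine h1.trans ?_
  have h5 : (N : ℝ) < r.den := by exact_mod_cast hr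
  have h6 : 5 / ε < r.den := hN.trans h5
  rw [div_lt_iff₀ hε] at h6
  linarith

end H44TX
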