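import Pool.Agent.Helper44.TX.Cov

/-! The variance of a block along affine maps whose successive ratios are close to a number all
powers of which are irrational. -/

open Finset MeasureTheory

namespace H44TX

/-- normalised covariance -/
noncomputable def cov (φ : ℝ → ℝ) (α κ : ℕ → ℝ) (ℓ : ℝ) (i j : ℕ) : ℝ :=
  (∫ y in (0 : ℝ)..ℓ, φ (α i + κ i * y) * φ (α j + κ j * y)) / ℓ

theorem cov_comm (φ : ℝ → ℝ) (α κ : ℕ → ℝ) (ℓ : ℝ) (i j : ℕ) :
    cov φ α κ ℓ i j = cov φ α κ ℓ j i := by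
  unfold cov
  congr 1
  congr 1
  funext y
  ring

theorem meas_aff {φ : ℝ → ℝ} (h : IsBV φ) (a k : ℝ) : Measurable fun y => φ (a + k * y) :=
  h.meas.comp ((measurable_const.mul measurable_id).const_add a)

theorem abs_mul_le_one {a b : ℝ} (ha : |a| ≤ 1) (hb : |b| ≤ 1) : |a * b| ≤ 1 := by
  rw [abs_mul]
  calc |a| * |b| ≤ 1 * 1 := mul_le_mul ha hb (abs_nonneg _) (by norm_num)
    _ = 1 := by norm_num

theorem cov_le_one {φ : ℝ → ℝ} (h : IsBV φ) (α κ : ℕ → ℝ) {ℓ : ℝ} (hℓ : 0 < ℓ) (i j : ℕ) :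
    |cov φ α κ ℓ i j| ≤ 1 := by
  unfold cov
  rw [abs_div, abs_of_pos hℓ, div_le_iff₀ hℓ]
  have := abs_int_le (f := fun y => φ (α i + κ i * y) * φ (α j + κ j * y)) (C := 1)
    (fun x => abs_mul_le_one (h.bdd _) (h.bdd _)) hℓ.le
  simpa using this

theorem sq_int {φ : ℝ → ℝ} (h : IsBV φ) (α κ : ℕ → ℝ) (ℓ : ℝ) (L : ℕ) :
    (∫ y in (0 : ℝ)..ℓ, (∑ j ∈ range L, φ (α j + κ j * y)) ^ 2) / ℓ
      = ∑ i ∈ range L, ∑ j ∈ range L, cov φ α κ ℓ i j := by
  have h1 : ∀ y, (∑ j ∈ range L, φ (α j + κ j * y)) ^ 2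
      = ∑ i ∈ range L, ∑ j ∈ range L, φ (α i + κ i * y) * φ (α j + κ j * y) := by
    intro y
    rw [sq, Finset.sum_mul_sum]
  have hI : ∀ i j, IntervalIntegrable (fun y => φ (α i + κ i * y) * φ (α j + κ j * y)) volume 0 ℓ :=
    fun i j => intInt_of_bdd ((meas_aff h _ _).mul (meas_aff h _ _)) (C := 1)
      (fun x => abs_mul_le_one (h.bdd _) (h.bdd _)) _ _
  simp only [h1]
  have hI2 : ∀ i, IntervalIntegrable
      (fun y => ∑ j ∈ range L, φ (α i + κ i * y) * φ (α j + κ j * y)) volume 0 ℓ := by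
    intro i
    refine intInt_of_bdd (Finset.measurable_sum _ fun j _ =>
      (meas_aff h _ _).mul (meas_aff h _ _)) (C := L) (fun x => ?_) _ _
    refine (Finset.abs_sum_le_sum_abs _ _).trans ?_
    refine (Finset.sum_le_sum fun j _ => abs_mul_le_one (h.bdd _) (h.bdd _)).trans ?_
    simp
  rw [intervalIntegral.integral_finsetSum (fun i _ => hI2 i)]
  rw [Finset.sum_div]
  apply Finset.sum_congr rfl
  intro i _
  rw [intervalIntegral.integral_finsetSum (fun j _ => hI i j), Finset.sum_div]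
  rfl

theorem sum_sq_bound (c : ℕ → ℕ → ℝ) (hc : ∀ i j, c i j = c j i) (v : ℝ) (L : ℕ) :
    |∑ i ∈ range L, ∑ j ∈ range L, c i j - L * v|
      ≤ ∑ j ∈ range L, (|c j j - v| + 2 * ∑ i ∈ range j, |c i j|) := by
  induction L with
  | zero => simp
  | succ L ih =>
    have h1 : ∑ i ∈ range (L + 1), ∑ j ∈ range (L + 1), c i j
        = ∑ i ∈ range L, ∑ j ∈ range L, c i j + 2 * ∑ i ∈ range L, c i L + c L L := by
      rw [Finset.sum_range_succ]
      simp only [Finset.sum_range_succ (fun j => c _ j)]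
      rw [Finset.sum_add_distrib]
      have : ∑ j ∈ range L, c L j = ∑ i ∈ range L, c i L :=
        Finset.sum_congr rfl fun i _ => hc L i
      rw [this]
      ring
    have h2 : ∑ i ∈ range (L + 1), ∑ j ∈ range (L + 1), c i j - ((L + 1 : ℕ) : ℝ) * v
        = (∑ i ∈ range L, ∑ j ∈ range L, c i j - L * v)
          + ((c L L - v) + 2 * ∑ i ∈ range L, c i L) := by
      rw [h1]; push_cast; ring
    rw [h2, Finset.sum_range_succ]
    refine (abs_add_le _ _).trans (add_le_add ih ((abs_add_le _ _).trans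
      (add_le_add le_rfl ?_)))
    rw [abs_mul, abs_two]
    exact mul_le_mul_of_nonneg_left (Finset.abs_sum_le_sum_abs _ _) (by norm_num)

theorem ratio_growth {κ : ℕ → ℝ} {L : ℕ} {β : ℝ} (hβ : 0 < β) (hκ : ∀ j < L, 0 < κ j)
    (hr : ∀ j, j + 1 < L → β ≤ κ (j + 1) / κ j) (i d : ℕ) (hid : i + d < L) :
    β ^ d * κ i ≤ κ (i + d) := by
  induction d with
  | zero => simp
  | succ d ih =>
    have h1 := ih (by omega)
    have h2 := hr (i + d) (by omega)
    have h3 := hκ (i + d) (by omega)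
    rw [le_div_iff₀ h3] at h2
    have h4 : i + (d + 1) = i + d + 1 := by ring
    rw [h4]
    calc β ^ (d + 1) * κ i = β * (β ^ d * κ i) := by ring
      _ ≤ β * κ (i + d) := mul_le_mul_of_nonneg_left h1 hβ.le
      _ ≤ κ (i + d + 1) := h2

theorem ratio_near {κ : ℕ → ℝ} {L : ℕ} {x₀ τ : ℝ} (hx : 0 < x₀) (hτ : 0 ≤ τ) (hτ1 : τ ≤ 1)
    (hκ : ∀ j < L, 0 < κ j)
    (hr : ∀ j, j + 1 < L → |κ (j + 1) / κ j - x₀| ≤ τ) (i d : ℕ) (hid : i + d < L) :
    |κ (i + d) / κ i - x₀ ^ d| ≤ d * (x₀ + 1) ^ d * τ := by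
  have hpos : 0 < κ i := hκ i (by omega)
  have hup : ∀ e, i + e < L → |κ (i + e) / κ i| ≤ (x₀ + 1) ^ e := by
    intro e he
    induction e with
    | zero => simp [div_self hpos.ne']
    | succ e ih =>
      have h1 := ih (by omega)
      have h2 := abs_le.1 (hr (i + e) (by omega))
      have h3 := hκ (i + e) (by omega)
      have h4 := hκ (i + e + 1) (by omega)
      have h5 : κ (i + (e + 1)) / κ i = (κ (i + e + 1) / κ (i + e)) * (κ (i + e) / κ i) := by
        have : i + (e + 1) = i + e + 1 := by ring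
        rw [this]; field_simp
      have h6 : |κ (i + e + 1) / κ (i + e)| ≤ x₀ + 1 := by
        rw [abs_of_pos (by positivity)]
        linarith [h2.2]
      rw [h5, abs_mul, pow_succ, mul_comm ((x₀ + 1) ^ e)]
      exact mul_le_mul h6 h1 (abs_nonneg _) (by positivity)
  induction d with
  | zero => simp [div_self hpos.ne']
  | succ d ih =>
    have h1 := ih (by omega)
    have h2 := hr (i + d) (by omega)
    have h3 := hκ (i + d) (by omega)
    have h5 : κ (i + (d + 1)) / κ i = (κ (i + d + 1) / κ (i + d)) * (κ (i + d) / κ i) := by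
      have : i + (d + 1) = i + d + 1 := by ring
      rw [this]; field_simp
    have h6 : κ (i + (d + 1)) / κ i - x₀ ^ (d + 1)
        = (κ (i + d + 1) / κ (i + d) - x₀) * (κ (i + d) / κ i)
          + x₀ * (κ (i + d) / κ i - x₀ ^ d) := by
      rw [h5]; ring
    rw [h6]
    refine (abs_add_le _ _).trans ?_
    rw [abs_mul, abs_mul, abs_of_pos hx]
    have h7 : |κ (i + d + 1) / κ (i + d) - x₀| * |κ (i + d) / κ i| ≤ τ * (x₀ + 1) ^ d :=
      mul_le_mul h2 (hup d (by omega)) (abs_nonneg _) hτ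
    have h8 : x₀ * |κ (i + d) / κ i - x₀ ^ d| ≤ x₀ * (d * (x₀ + 1) ^ d * τ) :=
      mul_le_mul_of_nonneg_left h1 hx.le
    have h9 : (0 : ℝ) ≤ (x₀ + 1) ^ d := by positivity
    have h10 : (0 : ℝ) ≤ d * (x₀ + 1) ^ d * τ := by positivity
    have h11 : (0 : ℝ) ≤ x₀ * ((x₀ + 1) ^ d * τ) := by positivity
    push_cast
    rw [pow_succ]
    nlinarith

theorem near_unif {x₀ : ℝ} (hirr : ∀ d : ℕ, 1 ≤ d → Irrational (x₀ ^ d)) {ε : ℝ} (hε : 0 < ε)
    (D : ℕ) :
    ∃ τ : ℝ, 0 < τ ∧ ∃ T₀ : ℝ, ∀ d : ℕ, 1 ≤ d → d ≤ D → ∀ φ : ℝ → ℝ, IsBV φ →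
      ∀ α κ α' κ' ℓ : ℝ, 0 < κ → 0 < ℓ → |κ' / κ - x₀ ^ d| ≤ τ → T₀ ≤ κ * ℓ →
      |(∫ y in (0 : ℝ)..ℓ, φ (α + κ * y) * φ (α' + κ' * y)) / ℓ| ≤ ε := by
  induction D with
  | zero => exact ⟨1, one_pos, 0, fun d h1 h2 => by omega⟩
  | succ D ih =>
    obtain ⟨τ, hτ, T₀, hD⟩ := ih
    obtain ⟨τ', hτ', T₀', hD'⟩ := near_bound (hirr (D + 1) (by omega)) hε
    refine ⟨min τ τ', lt_min hτ hτ', max T₀ T₀', ?_⟩
    intro d h1 h2 φ hφ α κ α' κ' ℓ hκ hℓ hr hT
    rcases Nat.lt_or_ge D d with h | h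
    · have hd : d = D + 1 := by omega
      subst hd
      exact hD' φ hφ α κ α' κ' ℓ hκ hℓ (hr.trans (min_le_right _ _))
        ((le_max_right _ _).trans hT)
    · exact hD d h1 h φ hφ α κ α' κ' ℓ hκ hℓ (hr.trans (min_le_left _ _))
        ((le_max_left _ _).trans hT)

/-- Row sums of the covariances are small from some row on. -/
theorem row_small {x₀ : ℝ} (hx : 1 < x₀) (hirr : ∀ d : ℕ, 1 ≤ d → Irrational (x₀ ^ d)) {ε : ℝ}
    (hε : 0 < ε) :
    ∃ τ : ℝ, 0 < τ ∧ ∃ J : ℕ, ∀ φ : ℝ → ℝ, IsBV φ → ∀ (L : ℕ) (α κ : ℕ → ℝ) (ℓ : ℝ), 0 < ℓ →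
      (∀ j < L, 0 < κ j) → 1 ≤ κ 0 * ℓ → (∀ j, j + 1 < L → |κ (j + 1) / κ j - x₀| ≤ τ) →
      ∀ j < L, J ≤ j → |cov φ α κ ℓ j j - ∫ t in (0 : ℝ)..1, φ t ^ 2|
        + 2 * ∑ i ∈ range j, |cov φ α κ ℓ i j| ≤ ε := by
  set β : ℝ := (1 + x₀) / 2 with hβ
  have hβ1 : 1 < β := by rw [hβ]; linarith
  have hβ0 : 0 < β := by linarith
  set r : ℝ := β⁻¹ with hr
  have hr0 : 0 < r := inv_pos.2 hβ0
  have hr1 : r < 1 := inv_lt_one_of_one_lt₀ hβ1
  -- choice of D
  have hlim : Filter.Tendsto (fun n : ℕ => r ^ n) Filter.atTop (nhds 0) :=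
    tendsto_pow_atTop_nhds_zero_of_lt_one hr0.le hr1
  obtain ⟨D, hD⟩ := (hlim.eventually_lt_const
    (show (0 : ℝ) < (ε / 24) * (1 - r) by
      have : 0 < 1 - r := by linarith
      positivity)).exists
  obtain ⟨τ₁, hτ₁, T₀, hN⟩ := near_unif hirr (show (0 : ℝ) < ε / (12 * (D + 1)) by positivity) D
  -- choice of τ
  set M : ℝ := D * (x₀ + 1) ^ D + 1 with hM
  have hM0 : 0 < M := by
    have : (0 : ℝ) ≤ D * (x₀ + 1) ^ D := by positivity
    linarith
  set τ : ℝ := min (min 1 ((x₀ - 1) / 2)) (τ₁ / M) with hτ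
  have hτ0 : 0 < τ := by
    refine lt_min (lt_min one_pos (by linarith)) (by positivity)
  have hτ1 : τ ≤ 1 := (min_le_left _ _).trans (min_le_left _ _)
  have hτ2 : τ ≤ (x₀ - 1) / 2 := (min_le_left _ _).trans (min_le_right _ _)
  have hτ3 : τ * M ≤ τ₁ := by
    have := min_le_right (min 1 ((x₀ - 1) / 2)) (τ₁ / M)
    rwa [← hτ, le_div_iff₀ hM0] at this
  -- choice of J
  have hgrow : Filter.Tendsto (fun n : ℕ => β ^ n) Filter.atTop Filter.atTop :=
    tendsto_pow_atTop_atTop_of_one_lt hβ1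
  obtain ⟨i₀, hi₀⟩ := Filter.eventually_atTop.1 (hgrow.eventually_ge_atTop T₀)
  have hlim2 : Filter.Tendsto (fun n : ℕ => (n : ℝ) * r ^ n) Filter.atTop (nhds 0) :=
    tendsto_self_mul_const_pow_of_lt_one hr0.le hr1
  obtain ⟨J₁, hJ₁⟩ := Filter.eventually_atTop.1 (hlim2.eventually_lt_const
    (show (0 : ℝ) < ε / 24 by positivity))
  refine ⟨τ, hτ0, max (max (i₀ + D) J₁) 1, ?_⟩
  intro φ hφ L α κ ℓ hℓ hκ h0 hrat j hj hJj
  have hJa : i₀ + D ≤ j := (le_max_left _ _).trans ((le_max_left _ _).trans hJj)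
  have hJb : J₁ ≤ j := (le_max_right _ _).trans ((le_max_left _ _).trans hJj)
  have hJc : 1 ≤ j := (le_max_right _ _).trans hJj
  have hL0 : 0 < L := by omega
  have hratβ : ∀ j, j + 1 < L → β ≤ κ (j + 1) / κ j := by
    intro j hj
    have := (abs_le.1 (hrat j hj)).1
    rw [hβ]; linarith
  have hlow : ∀ i < L, β ^ i ≤ κ i * ℓ := by
    intro i hi
    have h1 := ratio_growth hβ0 hκ hratβ 0 i (by omega)
    rw [zero_add] at h1
    calc β ^ i = β ^ i * 1 := by ring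
      _ ≤ β ^ i * (κ 0 * ℓ) := mul_le_mul_of_nonneg_left h0 (by positivity)
      _ = (β ^ i * κ 0) * ℓ := by ring
      _ ≤ κ i * ℓ := mul_le_mul_of_nonneg_right h1 hℓ.le
  have hrj : (j : ℝ) * r ^ j < ε / 24 := hJ₁ j hJb
  have hj1 : (1 : ℝ) ≤ j := by exact_mod_cast hJc
  have hrpos : ∀ n : ℕ, 0 < r ^ n := fun n => pow_pos hr0 n
  have hinv : ∀ i < L, 1 / (κ i * ℓ) ≤ r ^ i := by
    intro i hi
    rw [hr, inv_pow, ← one_div]
    exact one_div_le_one_div_of_le (by positivity) (hlow i hi)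
  -- diagonal
  have hdiag : |cov φ α κ ℓ j j - ∫ t in (0 : ℝ)..1, φ t ^ 2| ≤ ε / 24 := by
    have h1 := diag_bound hφ (α j) (κ j) ℓ (hκ j hj) hℓ
    have h2 : cov φ α κ ℓ j j = (∫ y in (0 : ℝ)..ℓ, φ (α j + κ j * y) ^ 2) / ℓ := by
      unfold cov
      congr 1
      congr 1
      funext y
      ring
    rw [h2]
    refine h1.trans ((hinv j hj).trans ?_)
    have : r ^ j ≤ j * r ^ j := by
      have := hrpos j
      nlinarith
    linarith
  -- rows
  have hterm : ∀ k ∈ range j, |cov φ α κ ℓ (j - 1 - k) j|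
      ≤ (if k < D then ε / (12 * (D + 1)) else 0) + (if D ≤ k then 2 * r ^ k else 0)
        + 3 * r ^ j := by
    intro k hk
    have hk' : k < j := Finset.mem_range.1 hk
    have hi : j - 1 - k < L := by omega
    have hij : (j - 1 - k) + (k + 1) = j := by omega
    rcases Nat.lt_or_ge k D with h | h
    · rw [if_pos h, if_neg (by omega)]
      have h1 : |κ j / κ (j - 1 - k) - x₀ ^ (k + 1)| ≤ τ₁ := by
        have h2 := ratio_near (by linarith) hτ0.le hτ1 hκ hrat (j - 1 - k) (k + 1) (by omega)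
        rw [hij] at h2
        refine h2.trans ?_
        have h3 : ((k + 1 : ℕ) : ℝ) * (x₀ + 1) ^ (k + 1) ≤ M := by
          have h4 : ((k + 1 : ℕ) : ℝ) ≤ D := by exact_mod_cast h
          have h5 : (x₀ + 1) ^ (k + 1) ≤ (x₀ + 1) ^ D :=
            pow_le_pow_right₀ (by linarith) h
          have h6 : ((k + 1 : ℕ) : ℝ) * (x₀ + 1) ^ (k + 1) ≤ D * (x₀ + 1) ^ D :=
            mul_le_mul h4 h5 (by positivity) (by positivity)
          rw [hM]; linarith
        calc ((k + 1 : ℕ) : ℝ) * (x₀ + 1) ^ (k + 1) * τ ≤ M * τ :=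
              mul_le_mul_of_nonneg_right h3 hτ0.le
          _ ≤ τ₁ := by rw [mul_comm]; exact hτ3
      have h2 := hN (k + 1) (by omega) (by omega) φ hφ (α (j - 1 - k)) (κ (j - 1 - k)) (α j)
        (κ j) ℓ (hκ _ hi) hℓ h1 ((hi₀ (j - 1 - k) (by omega)).trans (hlow _ hi))
      have h3 : |cov φ α κ ℓ (j - 1 - k) j| ≤ ε / (12 * (D + 1)) := h2
      have h4 := hrpos j
      linarith
    · rw [if_neg (by omega), if_pos h]
      have h1 := lag_bound hφ (α (j - 1 - k)) (κ (j - 1 - k)) (α j) (κ j) ℓ (hκ _ hi)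
        (hκ j hj) hℓ
      have h2 := ratio_growth hβ0 hκ hratβ (j - 1 - k) (k + 1) (by omega)
      rw [hij] at h2
      have h3 : κ (j - 1 - k) / κ j ≤ r ^ k := by
        rw [div_le_iff₀ (hκ j hj)]
        have h5 : r ^ k * β ^ k = 1 := by
          rw [← mul_pow, hr, inv_mul_cancel₀ hβ0.ne', one_pow]
        have h6 : β ^ k * κ (j - 1 - k) ≤ κ j := by
          refine le_trans ?_ h2
          apply mul_le_mul_of_nonneg_right _ (hκ _ hi).le
          exact pow_le_pow_right₀ hβ1.le (by omega)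
        calc κ (j - 1 - k) = r ^ k * (β ^ k * κ (j - 1 - k)) := by
              rw [← mul_assoc, h5, one_mul]
          _ ≤ r ^ k * κ j := mul_le_mul_of_nonneg_left h6 (hrpos k).le
      have h4 := hinv j hj
      have h7 : 3 / (κ j * ℓ) = 3 * (1 / (κ j * ℓ)) := by ring
      unfold cov
      rw [h7] at h1
      linarith
  have hrow : ∑ i ∈ range j, |cov φ α κ ℓ i j| ≤ ε / 12 + ε / 12 + 3 * (ε / 24) := by
    rw [← Finset.sum_range_reflect]
    refine (Finset.sum_le_sum hterm).trans ?_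
    rw [Finset.sum_add_distrib, Finset.sum_add_distrib]
    have s1 : ∑ k ∈ range j, (if k < D then ε / (12 * ((D : ℝ) + 1)) else 0) ≤ ε / 12 := by
      rw [← Finset.sum_filter]
      rw [Finset.sum_const, nsmul_eq_mul]
      have hcard : ((range j).filter fun k => k < D).card ≤ D := by
        calc _ ≤ (range D).card := Finset.card_le_card (fun k hk => by
              simp only [Finset.mem_filter, Finset.mem_range] at hk ⊢
              exact hk.2)
          _ = D := card_range D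
      have hcard' : (((range j).filter fun k => k < D).card : ℝ) ≤ D := by exact_mod_cast hcard
      calc _ ≤ (D : ℝ) * (ε / (12 * ((D : ℝ) + 1))) :=
            mul_le_mul_of_nonneg_right hcard' (by positivity)
        _ ≤ ((D : ℝ) + 1) * (ε / (12 * ((D : ℝ) + 1))) :=
            mul_le_mul_of_nonneg_right (by linarith) (by positivity)
        _ = ε / 12 := by field_simp
    have s2 : ∑ k ∈ range j, (if D ≤ k then 2 * r ^ k else 0) ≤ ε / 12 := by
      rw [← Finset.sum_filter, ← Finset.mul_sum]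
      have hsub : (range j).filter (fun k => D ≤ k) = Finset.Ico D j := by
        ext k
        simp only [Finset.mem_filter, Finset.mem_range, Finset.mem_Ico]
        omega
      rw [hsub]
      have h1 := geom_sum_Ico_le_of_lt_one hr0.le hr1 (m := D) (n := j)
      have h2 : r ^ D / (1 - r) ≤ ε / 24 := by
        rw [div_le_iff₀ (by linarith)]
        exact hD.le
      linarith
    have s3 : ∑ k ∈ range j, 3 * r ^ j ≤ 3 * (ε / 24) := by
      rw [Finset.sum_const, card_range, nsmul_eq_mul]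
      nlinarith
    linarith
  linarith

/-- The variance of a block. -/
theorem block_var {x₀ : ℝ} (hx : 1 < x₀) (hirr : ∀ d : ℕ, 1 ≤ d → Irrational (x₀ ^ d)) {ε : ℝ}
    (hε : 0 < ε) :
    ∃ τ : ℝ, 0 < τ ∧ ∃ C : ℝ, 0 ≤ C ∧ ∀ φ : ℝ → ℝ, IsBV φ → ∀ (L : ℕ) (α κ : ℕ → ℝ) (ℓ : ℝ),
      0 < ℓ → (∀ j < L, 0 < κ j) → 1 ≤ κ 0 * ℓ →
      (∀ j, j + 1 < L → |κ (j + 1) / κ j - x₀| ≤ τ) →
      |(∫ y in (0 : ℝ)..ℓ, (∑ j ∈ range L, φ (α j + κ j * y)) ^ 2) / ℓ
        - L * ∫ t in (0 : ℝ)..1, φ t ^ 2| ≤ ε * L + C := by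
  obtain ⟨τ, hτ, J, hrow⟩ := row_small hx hirr hε
  refine ⟨τ, hτ, (J : ℝ) * (2 + 2 * J), by positivity, ?_⟩
  intro φ hφ L α κ ℓ hℓ hκ h0 hrat
  rw [sq_int hφ]
  refine (sum_sq_bound _ (cov_comm φ α κ ℓ) _ L).trans ?_
  set v := ∫ t in (0 : ℝ)..1, φ t ^ 2 with hv
  have hv1 : v ≤ 1 ∧ 0 ≤ v := by
    constructor
    · have := abs_int_le (f := fun t => φ t ^ 2) (C := 1) (fun x => by
        rw [abs_pow]; exact pow_le_one₀ (abs_nonneg _) (hφ.bdd x)) (a := 0) (b := 1) (by norm_num)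
      have h4 := (abs_le.1 this).2
      simpa [← hv] using h4
    · exact intervalIntegral.integral_nonneg (by norm_num) (fun x _ => sq_nonneg _)
  have hterm : ∀ j ∈ range L, |cov φ α κ ℓ j j - v| + 2 * ∑ i ∈ range j, |cov φ α κ ℓ i j|
      ≤ ε + (if j < J then 2 + 2 * (J : ℝ) else 0) := by
    intro j hj
    have hj' := Finset.mem_range.1 hj
    rcases Nat.lt_or_ge j J with h | h
    · rw [if_pos h]
      have h1 : |cov φ α κ ℓ j j - v| ≤ 2 := by
        have := abs_le.1 (cov_le_one hφ α κ hℓ j j)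
        rw [abs_le]
        constructor <;> linarith [this.1, this.2, hv1.1, hv1.2]
      have h2 : ∑ i ∈ range j, |cov φ α κ ℓ i j| ≤ J := by
        refine (Finset.sum_le_sum fun i _ => cov_le_one hφ α κ hℓ i j).trans ?_
        rw [Finset.sum_const, card_range, nsmul_eq_mul, mul_one]
        exact_mod_cast h.le
      linarith
    · rw [if_neg (by omega)]
      have := hrow φ hφ L α κ ℓ hℓ hκ h0 hrat j hj' h
      linarith
  refine (Finset.sum_le_sum hterm).trans ?_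
  rw [Finset.sum_add_distrib, Finset.sum_const, card_range, nsmul_eq_mul, ← Finset.sum_filter,
    Finset.sum_const, nsmul_eq_mul]
  have hcard : ((range L).filter fun k => k < J).card ≤ J := by
    calc _ ≤ (range J).card := Finset.card_le_card (fun k hk => by
          simp only [Finset.mem_filter, Finset.mem_range] at hk ⊢
          exact hk.2)
      _ = J := card_range J
  have hcard' : (((range L).filter fun k => k < J).card : ℝ) ≤ J := by exact_mod_cast hcard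
  have h3 : (((range L).filter fun k => k < J).card : ℝ) * (2 + 2 * J) ≤ J * (2 + 2 * J) :=
    mul_le_mul_of_nonneg_right hcard' (by positivity)
  linarith

end H44TX
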