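import Pool.Agent.Helper44.TX.DKM

/-! Covariances of a function of bounded variation along two affine maps. -/

open Finset MeasureTheory

namespace H44TX

theorem intInt_of_bdd {f : ℝ → ℝ} (hf : Measurable f) {C : ℝ} (hb : ∀ x, |f x| ≤ C) (a b : ℝ) :
    IntervalIntegrable f volume a b := by
  have h : IntervalIntegrable (fun _ : ℝ => C) volume a b := intervalIntegrable_const
  exact h.mono_fun hf.aestronglyMeasurable (Filter.Eventually.of_forall fun x => by
    simp only [Real.norm_eq_abs]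
    exact (hb x).trans (le_abs_self C))

theorem abs_int_le {f : ℝ → ℝ} {C : ℝ} (hb : ∀ x, |f x| ≤ C) {a b : ℝ} (hab : a ≤ b) :
    |∫ t in a..b, f t| ≤ C * (b - a) := by
  have h := intervalIntegral.norm_integral_le_of_norm_le_const (a := a) (b := b) (f := f) (C := C)
    (fun x _ => by rw [Real.norm_eq_abs]; exact hb x)
  rwa [Real.norm_eq_abs, abs_of_nonneg (by linarith : 0 ≤ b - a)] at h

/-- Sums of one period of length `Q` are small, hence so is the integral. -/
theorem int_of_blocks {F : ℝ → ℝ} (hF : Measurable F) (hb : ∀ x, |F x| ≤ 1) {Q : ℕ} (hQ : 0 < Q)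
    {ε : ℝ} (hε : 0 ≤ ε) (h : ∀ t, |∑ m ∈ range Q, F (t + m)| ≤ ε * Q) {T : ℝ} (hT : 0 ≤ T) :
    |∫ t in (0 : ℝ)..T, F t| ≤ ε * T + Q := by
  have hQ0 : (0 : ℝ) < Q := by exact_mod_cast hQ
  have hI : ∀ a b : ℝ, IntervalIntegrable F volume a b := fun a b => intInt_of_bdd hF hb a b
  have h1 : ∀ a : ℝ, |∫ t in a..(a + Q), F t| ≤ ε * Q := by
    intro a
    have h2 : ∫ t in a..(a + Q), F t = ∫ t in a..(a + 1), ∑ m ∈ range Q, F (t + m) := by
      rw [intervalIntegral.integral_finsetSum (fun m _ => by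
        have := (hI (a + m) (a + 1 + m)).comp_add_right (m : ℝ)
        simpa using this)]
      have h3 : ∫ t in a..(a + Q), F t
          = ∑ m ∈ range Q, ∫ t in (a + (m : ℕ))..(a + ((m + 1 : ℕ) : ℝ)), F t := by
        rw [intervalIntegral.sum_integral_adjacent_intervals (a := fun m : ℕ => a + (m : ℝ))
          (fun k _ => hI _ _)]
        simp
      rw [h3]
      apply Finset.sum_congr rfl
      intro m _
      rw [intervalIntegral.integral_comp_add_right (fun t => F t) (m : ℝ)]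
      congr 1
      push_cast
      ring
    rw [h2]
    have h3 := abs_int_le (f := fun t => ∑ m ∈ range Q, F (t + m)) h (a := a) (b := a + 1)
      (by linarith)
    simpa using h3
  have h4 : ∀ n : ℕ, |∫ t in (0 : ℝ)..(n * Q), F t| ≤ n * (ε * Q) := by
    intro n
    induction n with
    | zero => simp
    | succ n ih =>
      have h5 : ∫ t in (0 : ℝ)..((n + 1 : ℕ) * Q), F t
          = (∫ t in (0 : ℝ)..(n * Q), F t) + ∫ t in (n * Q : ℝ)..(n * Q + Q), F t := by
        rw [intervalIntegral.integral_add_adjacent_intervals (hI _ _) (hI _ _)]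
        congr 1
        push_cast; ring
      rw [h5]
      refine (abs_add_le _ _).trans ((add_le_add ih (h1 _)).trans (le_of_eq ?_))
      push_cast; ring
  let n : ℕ := ⌊T / Q⌋₊
  have hn1 : (n : ℝ) ≤ T / Q := Nat.floor_le (by positivity)
  have hn2 : T / Q < n + 1 := Nat.lt_floor_add_one _
  have hn3 : n * Q ≤ T := by rwa [le_div_iff₀ hQ0] at hn1
  have hn4 : T < n * Q + Q := by
    rw [div_lt_iff₀ hQ0] at hn2; linarith
  have h6 : ∫ t in (0 : ℝ)..T, F t
      = (∫ t in (0 : ℝ)..(n * Q), F t) + ∫ t in (n * Q : ℝ)..T, F t := by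
    rw [intervalIntegral.integral_add_adjacent_intervals (hI _ _) (hI _ _)]
  have h7 := abs_int_le hb hn3
  rw [h6]
  refine (abs_add_le _ _).trans ?_
  have h8 : (n : ℝ) * (ε * Q) ≤ ε * T := by
    calc (n : ℝ) * (ε * Q) = ε * (n * Q) := by ring
      _ ≤ ε * T := mul_le_mul_of_nonneg_left hn3 hε
  linarith [h4 n]

/-- The class of functions: differences of two lifts, of mean zero, bounded by one. -/
structure IsBV (φ : ℝ → ℝ) : Prop where
  ex : ∃ s₁ s₂ : ℝ → ℝ, IsLift s₁ ∧ IsLift s₂ ∧ ∃ c : ℝ, ∀ t, φ t = s₁ t - s₂ t - c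
  bdd : ∀ t, |φ t| ≤ 1
  mean : ∫ t in (0 : ℝ)..1, φ t = 0

theorem IsBV.meas {φ : ℝ → ℝ} (h : IsBV φ) : Measurable φ := by
  obtain ⟨s₁, s₂, h1, h2, c, hc⟩ := h.ex
  have : φ = fun t => s₁ t - s₂ t - c := funext hc
  rw [this]
  exact (h1.mono.measurable.sub h2.mono.measurable).sub_const c

theorem IsBV.per {φ : ℝ → ℝ} (h : IsBV φ) : Function.Periodic φ 1 := by
  obtain ⟨s₁, s₂, h1, h2, c, hc⟩ := h.ex
  intro t
  rw [hc, hc, h1.add_one, h2.add_one]
  ring

theorem IsBV.mean' {φ : ℝ → ℝ} (h : IsBV φ) (a x : ℝ) : ∫ t in x..(x + 1), φ (a + t) = 0 := by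
  have h1 : ∫ t in x..(x + 1), φ (a + t) = ∫ t in (a + x)..(a + (x + 1)), φ t :=
    intervalIntegral.integral_comp_add_left (fun t => φ t) a
  have h2 := h.per.intervalIntegral_add_eq (a + x) 0
  rw [zero_add, h.mean] at h2
  rw [h1, ← h2]
  congr 1
  ring

/-- The diagonal terms. -/
theorem diag_bound {φ : ℝ → ℝ} (h : IsBV φ) (α κ ℓ : ℝ) (hκ : 0 < κ) (hℓ : 0 < ℓ) :
    |(∫ y in (0 : ℝ)..ℓ, φ (α + κ * y) ^ 2) / ℓ - ∫ t in (0 : ℝ)..1, φ t ^ 2|
      ≤ 1 / (κ * ℓ) := by
  have hT : 0 < κ * ℓ := by positivity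
  set v := ∫ t in (0 : ℝ)..1, φ t ^ 2 with hv
  let F : ℝ → ℝ := fun t => φ t ^ 2
  have hFm : Measurable F := h.meas.pow_const 2
  have hFb : ∀ x, |F x| ≤ 1 := by
    intro x
    simp only [F, abs_pow]
    exact pow_le_one₀ (abs_nonneg _) (h.bdd x)
  have hFp : Function.Periodic F 1 := by
    intro t; simp only [F]; rw [h.per t]
  have hI : ∀ a b : ℝ, IntervalIntegrable F volume a b := fun a b => intInt_of_bdd hFm hFb a b
  have hF0 : ∀ x, 0 ≤ F x := fun x => sq_nonneg _
  have h1 : ∫ y in (0 : ℝ)..ℓ, φ (α + κ * y) ^ 2 = (∫ t in α..(α + κ * ℓ), F t) / κ := by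
    have := intervalIntegral.integral_comp_add_mul (a := 0) (b := ℓ) (fun t => F t) hκ.ne' α
    simp only [mul_zero, add_zero, smul_eq_mul] at this
    rw [div_eq_inv_mul]
    exact this
  have h2 : ∀ n : ℕ, ∫ t in α..(α + n), F t = n * v := by
    intro n
    induction n with
    | zero => simp
    | succ n ih =>
      have h5 : ∫ t in α..(α + (n + 1 : ℕ)), F t
          = (∫ t in α..(α + n), F t) + ∫ t in (α + n)..(α + n + 1), F t := by
        rw [intervalIntegral.integral_add_adjacent_intervals (hI _ _) (hI _ _)]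
        congr 1
        push_cast; ring
      have h6 := hFp.intervalIntegral_add_eq (α + n) 0
      rw [zero_add] at h6
      rw [h5, ih, h6]
      push_cast
      simp only [F]
      rw [← hv]; ring
  let n : ℕ := ⌊κ * ℓ⌋₊
  have hn1 : (n : ℝ) ≤ κ * ℓ := Nat.floor_le hT.le
  have hn2 : κ * ℓ < n + 1 := Nat.lt_floor_add_one _
  have h3 : ∫ t in α..(α + κ * ℓ), F t = n * v + ∫ t in (α + n)..(α + κ * ℓ), F t := by
    rw [← h2 n, intervalIntegral.integral_add_adjacent_intervals (hI _ _) (hI _ _)]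
  have hv1 : v ≤ 1 ∧ 0 ≤ v := by
    constructor
    · have := abs_int_le hFb (a := 0) (b := 1) (by norm_num)
      have h4 := (abs_le.1 this).2
      simpa [F, ← hv] using h4
    · exact intervalIntegral.integral_nonneg (by norm_num) (fun x _ => sq_nonneg _)
  have h4 : 0 ≤ ∫ t in (α + n)..(α + κ * ℓ), F t :=
    intervalIntegral.integral_nonneg (by linarith) (fun x _ => hF0 x)
  have h5 := (abs_le.1 (abs_int_le hFb (a := α + n) (b := α + κ * ℓ) (by linarith))).2
  have h6 : (∫ y in (0 : ℝ)..ℓ, φ (α + κ * y) ^ 2) / ℓ - v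
      = ((∫ t in (α + n)..(α + κ * ℓ), F t) - (κ * ℓ - n) * v) / (κ * ℓ) := by
    rw [h1, h3]
    field_simp
    ring
  rw [h6, abs_div, abs_of_pos hT]
  apply div_le_div_of_nonneg_right _ hT.le
  have h7 : 0 ≤ (κ * ℓ - n) * v := mul_nonneg (by linarith) hv1.2
  have h8 : (κ * ℓ - n) * v ≤ 1 := by
    calc (κ * ℓ - n) * v ≤ 1 * 1 := mul_le_mul (by linarith) hv1.1 hv1.2 (by norm_num)
      _ = 1 := by norm_num
  rw [abs_le]
  constructor <;> linarith

/-- The covariance of two affine maps, general bound. -/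
theorem lag_bound {φ : ℝ → ℝ} (h : IsBV φ) (α κ α' κ' ℓ : ℝ) (hκ : 0 < κ) (hκ' : 0 < κ')
    (hℓ : 0 < ℓ) :
    |(∫ y in (0 : ℝ)..ℓ, φ (α + κ * y) * φ (α' + κ' * y)) / ℓ| ≤ 2 * (κ / κ') + 3 / (κ' * ℓ) := by
  obtain ⟨s₁, s₂, h1, h2, c, hc⟩ := h.ex
  have hT : 0 < κ' * ℓ := by positivity
  set l := κ / κ' with hl
  have hl0 : 0 < l := by positivity
  let F : ℝ → ℝ := fun t => φ (α + l * t) * φ (α' + t)
  have hχm : Measurable fun t => φ (α + l * t) :=
    h.meas.comp ((measurable_const.mul measurable_id).const_add α)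
  have hψm : Measurable fun t => φ (α' + t) := h.meas.comp (measurable_id.const_add α')
  have hFm : Measurable F := hχm.mul hψm
  have hmul : ∀ a b : ℝ, |a| ≤ 1 → |b| ≤ 1 → |a * b| ≤ 1 := by
    intro a b ha hb
    rw [abs_mul]
    calc |a| * |b| ≤ 1 * 1 := mul_le_mul ha hb (abs_nonneg _) (by norm_num)
      _ = 1 := by norm_num
  have hFb : ∀ x, |F x| ≤ 1 := fun x => hmul _ _ (h.bdd _) (h.bdd _)
  have hI : ∀ a b : ℝ, IntervalIntegrable F volume a b := fun a b => intInt_of_bdd hFm hFb a b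
  have hsub : ∫ y in (0 : ℝ)..ℓ, φ (α + κ * y) * φ (α' + κ' * y)
      = (∫ t in (0 : ℝ)..(κ' * ℓ), F t) / κ' := by
    have := intervalIntegral.integral_comp_mul_left (a := 0) (b := ℓ) (fun t => F t) hκ'.ne'
    simp only [mul_zero, smul_eq_mul] at this
    rw [div_eq_inv_mul, ← this]
    congr 1
    funext y
    simp only [F]
    congr 2
    rw [hl]; field_simp
  have hstep : ∀ k : ℕ, |∫ t in (k : ℝ)..(k + 1), F t|
      ≤ (s₁ (α + l * ((k + 1 : ℕ) : ℝ)) - s₁ (α + l * (k : ℕ)))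
        + (s₂ (α + l * ((k + 1 : ℕ) : ℝ)) - s₂ (α + l * (k : ℕ))) := by
    intro k
    have h3 : ∫ t in (k : ℝ)..(k + 1), F t
        = ∫ t in (k : ℝ)..(k + 1), (φ (α + l * t) - φ (α + l * k)) * φ (α' + t) := by
      have h4 : ∫ t in (k : ℝ)..(k + 1), φ (α + l * k) * φ (α' + t) = 0 := by
        rw [intervalIntegral.integral_const_mul, h.mean', mul_zero]
      have hI2 : IntervalIntegrable (fun t => φ (α + l * k) * φ (α' + t)) volume k (k + 1) :=
        intInt_of_bdd (measurable_const.mul hψm) (C := 1) (fun x => hmul _ _ (h.bdd _) (h.bdd _))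
          _ _
      have h5 : ∀ t, (φ (α + l * t) - φ (α + l * k)) * φ (α' + t)
          = F t - φ (α + l * k) * φ (α' + t) := fun t => by simp only [F]; ring
      simp only [h5]
      rw [intervalIntegral.integral_sub (hI _ _) hI2, h4, sub_zero]
    rw [h3]
    have h6 := intervalIntegral.norm_integral_le_of_norm_le_const (a := (k : ℝ)) (b := k + 1)
      (f := fun t => (φ (α + l * t) - φ (α + l * k)) * φ (α' + t))
      (C := (s₁ (α + l * ((k + 1 : ℕ) : ℝ)) - s₁ (α + l * (k : ℕ)))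
        + (s₂ (α + l * ((k + 1 : ℕ) : ℝ)) - s₂ (α + l * (k : ℕ)))) (by
      intro t ht
      rw [Set.uIoc_of_le (by linarith)] at ht
      have e1 : α + l * k ≤ α + l * t := by
        have := mul_le_mul_of_nonneg_left ht.1.le hl0.le
        linarith
      have e2 : α + l * t ≤ α + l * ((k + 1 : ℕ) : ℝ) := by
        have := mul_le_mul_of_nonneg_left ht.2 hl0.le
        push_cast
        linarith
      have m1 := h1.mono e1
      have m2 := h1.mono e2
      have m3 := h2.mono e1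
      have m4 := h2.mono e2
      rw [Real.norm_eq_abs, abs_mul]
      have h7 : |φ (α + l * t) - φ (α + l * k)|
          ≤ (s₁ (α + l * ((k + 1 : ℕ) : ℝ)) - s₁ (α + l * (k : ℕ)))
        + (s₂ (α + l * ((k + 1 : ℕ) : ℝ)) - s₂ (α + l * (k : ℕ))) := by
        rw [hc, hc, abs_le]
        constructor <;> linarith
      calc |φ (α + l * t) - φ (α + l * k)| * |φ (α' + t)|
          ≤ |φ (α + l * t) - φ (α + l * k)| * 1 :=
            mul_le_mul_of_nonneg_left (h.bdd _) (abs_nonneg _)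
        _ ≤ _ := by rw [mul_one]; exact h7)
    have h8 : |(k : ℝ) + 1 - k| = 1 := by norm_num
    rw [h8, mul_one, Real.norm_eq_abs] at h6
    exact h6
  have hsum : ∀ n : ℕ, |∫ t in (0 : ℝ)..n, F t|
      ≤ (s₁ (α + l * n) - s₁ α) + (s₂ (α + l * n) - s₂ α) := by
    intro n
    induction n with
    | zero => simp
    | succ n ih =>
      have h5 : ∫ t in (0 : ℝ)..((n + 1 : ℕ) : ℝ), F t
          = (∫ t in (0 : ℝ)..n, F t) + ∫ t in (n : ℝ)..(n + 1), F t := by
        rw [intervalIntegral.integral_add_adjacent_intervals (hI _ _) (hI _ _)]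
        congr 1
        push_cast; ring
      rw [h5]
      refine (abs_add_le _ _).trans ((add_le_add ih (hstep n)).trans (le_of_eq ?_))
      ring
  have hlift : ∀ s : ℝ → ℝ, IsLift s → ∀ x y : ℝ, 0 ≤ y → s (x + y) - s x ≤ y + 1 := by
    intro s hs x y hy
    have h9 : ∀ n : ℕ, s (x + n) = s x + n := by
      intro n
      induction n with
      | zero => simp
      | succ n ih =>
        have : x + ((n + 1 : ℕ) : ℝ) = (x + n) + 1 := by push_cast; ring
        rw [this, hs.add_one, ih]; push_cast; ring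
    have h10 : y ≤ (⌊y⌋₊ + 1 : ℕ) := by
      push_cast; exact (Nat.lt_floor_add_one y).le
    have h11 := hs.mono (show x + y ≤ x + (⌊y⌋₊ + 1 : ℕ) by linarith)
    rw [h9] at h11
    have h12 : (⌊y⌋₊ : ℝ) ≤ y := Nat.floor_le hy
    push_cast at h11
    linarith
  let n : ℕ := ⌊κ' * ℓ⌋₊
  have hn1 : (n : ℝ) ≤ κ' * ℓ := Nat.floor_le hT.le
  have hn2 : κ' * ℓ < n + 1 := Nat.lt_floor_add_one _
  have h3 : ∫ t in (0 : ℝ)..(κ' * ℓ), F t
      = (∫ t in (0 : ℝ)..n, F t) + ∫ t in (n : ℝ)..(κ' * ℓ), F t := by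
    rw [intervalIntegral.integral_add_adjacent_intervals (hI _ _) (hI _ _)]
  have h5 := abs_int_le hFb (a := (n : ℝ)) (b := κ' * ℓ) hn1
  have h6 : |∫ t in (0 : ℝ)..(κ' * ℓ), F t| ≤ 2 * (l * (κ' * ℓ)) + 3 := by
    rw [h3]
    refine (abs_add_le _ _).trans ?_
    have h7 := hlift s₁ h1 α (l * n) (by positivity)
    have h8 := hlift s₂ h2 α (l * n) (by positivity)
    have h9 := hsum n
    have h10 : l * n ≤ l * (κ' * ℓ) := mul_le_mul_of_nonneg_left hn1 hl0.le
    linarith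
  rw [hsub, div_div, abs_div, abs_of_pos hT, div_le_iff₀ hT]
  refine h6.trans (le_of_eq ?_)
  field_simp

/-- The covariance of two affine maps whose ratio is close to an irrational number. -/
theorem near_bound {b : ℝ} (hb : Irrational b) {ε : ℝ} (hε : 0 < ε) :
    ∃ τ : ℝ, 0 < τ ∧ ∃ T₀ : ℝ, ∀ φ : ℝ → ℝ, IsBV φ → ∀ α κ α' κ' ℓ : ℝ, 0 < κ → 0 < ℓ →
      |κ' / κ - b| ≤ τ → T₀ ≤ κ * ℓ →
      |(∫ y in (0 : ℝ)..ℓ, φ (α + κ * y) * φ (α' + κ' * y)) / ℓ| ≤ ε := by
  obtain ⟨Q, hQ, τ, hτ, hdk⟩ := dk_lift_irr hb (show (0 : ℝ) < ε / 4 by positivity)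
  have hQ0 : (0 : ℝ) < Q := by exact_mod_cast hQ
  refine ⟨τ / Q, by positivity, 2 * Q / ε, ?_⟩
  intro φ h α κ α' κ' ℓ hκ hℓ hr hT
  obtain ⟨s₁, s₂, h1, h2, c, hc⟩ := h.ex
  have hT0 : 0 < κ * ℓ := by positivity
  set k := κ' / κ with hk
  let F : ℝ → ℝ := fun t => φ (α + t) * φ (α' + k * t)
  have hχm : Measurable fun t => φ (α' + k * t) :=
    h.meas.comp ((measurable_const.mul measurable_id).const_add α')
  have hψm : Measurable fun t => φ (α + t) := h.meas.comp (measurable_id.const_add α)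
  have hFm : Measurable F := hψm.mul hχm
  have hmul : ∀ a b : ℝ, |a| ≤ 1 → |b| ≤ 1 → |a * b| ≤ 1 := by
    intro a b ha hb
    rw [abs_mul]
    calc |a| * |b| ≤ 1 * 1 := mul_le_mul ha hb (abs_nonneg _) (by norm_num)
      _ = 1 := by norm_num
  have hFb : ∀ x, |F x| ≤ 1 := fun x => hmul _ _ (h.bdd _) (h.bdd _)
  have hsub : ∫ y in (0 : ℝ)..ℓ, φ (α + κ * y) * φ (α' + κ' * y)
      = (∫ t in (0 : ℝ)..(κ * ℓ), F t) / κ := by
    have := intervalIntegral.integral_comp_mul_left (a := 0) (b := ℓ) (fun t => F t) hκ.ne'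
    simp only [mul_zero, smul_eq_mul] at this
    rw [div_eq_inv_mul, ← this]
    congr 1
    funext y
    simp only [F]
    congr 2
    rw [hk]; field_simp
  have hmean : (∫ t in (0 : ℝ)..1, (s₁ t - t)) - (∫ t in (0 : ℝ)..1, (s₂ t - t)) = c := by
    have h3 : ∫ t in (0 : ℝ)..1, φ t
        = (∫ t in (0 : ℝ)..1, (s₁ t - t)) - (∫ t in (0 : ℝ)..1, (s₂ t - t)) - c := by
      have h4 : ∀ t, φ t = ((s₁ t - t) - (s₂ t - t)) - c := fun t => by rw [hc]; ring
      simp only [h4]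
      rw [intervalIntegral.integral_sub ((h1.intInt' _ _).sub (h2.intInt' _ _))
        intervalIntegrable_const, intervalIntegral.integral_sub (h1.intInt' _ _) (h2.intInt' _ _)]
      simp
    rw [h.mean] at h3
    linarith
  have hblock : ∀ t, |∑ m ∈ range Q, F (t + m)| ≤ (ε / 2) * Q := by
    intro t
    let g : ℕ → ℝ := fun m => α' + k * (t + m)
    have hg : ∀ m < Q, |g m - g 0 - b * m| ≤ τ := by
      intro m hm
      have hm' : (m : ℝ) ≤ Q := by exact_mod_cast hm.le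
      have e1 : g m - g 0 - b * m = (k - b) * m := by
        simp only [g, Nat.cast_zero]; ring
      rw [e1, abs_mul, abs_of_nonneg (by positivity : (0 : ℝ) ≤ m)]
      calc |k - b| * m ≤ (τ / Q) * Q := mul_le_mul hr hm' (by positivity) (by positivity)
        _ = τ := by field_simp
    have d1 := hdk s₁ h1 g hg
    have d2 := hdk s₂ h2 g hg
    have e2 : ∑ m ∈ range Q, F (t + m) = φ (α + t)
        * ((∑ m ∈ range Q, (s₁ (g m) - g m) - Q * ∫ t in (0 : ℝ)..1, (s₁ t - t))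
          - (∑ m ∈ range Q, (s₂ (g m) - g m) - Q * ∫ t in (0 : ℝ)..1, (s₂ t - t))) := by
      have e3 : ∑ m ∈ range Q, F (t + m) = φ (α + t) * ∑ m ∈ range Q, φ (g m) := by
        rw [Finset.mul_sum]
        apply Finset.sum_congr rfl
        intro m _
        simp only [F, g]
        have : α + (t + m) = (α + t) + ((m : ℤ) : ℝ) := by push_cast; ring
        rw [this, per_int h.per]
      rw [e3]
      congr 1
      have e4 : ∑ m ∈ range Q, φ (g m)
          = ∑ m ∈ range Q, (s₁ (g m) - g m) - ∑ m ∈ range Q, (s₂ (g m) - g m) - Q * c := by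
        have : ∀ m : ℕ, φ (g m) = (s₁ (g m) - g m) - (s₂ (g m) - g m) - c := fun m => by
          rw [hc]; ring
        simp only [this]
        rw [Finset.sum_sub_distrib, Finset.sum_sub_distrib, Finset.sum_const, card_range,
          nsmul_eq_mul]
      rw [e4, ← hmean]
      ring
    rw [e2, abs_mul]
    have e5 := abs_sub (∑ m ∈ range Q, (s₁ (g m) - g m) - Q * ∫ t in (0 : ℝ)..1, (s₁ t - t))
      (∑ m ∈ range Q, (s₂ (g m) - g m) - Q * ∫ t in (0 : ℝ)..1, (s₂ t - t))
    calc _ ≤ 1 * (ε / 4 * Q + ε / 4 * Q) := by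
          apply mul_le_mul (h.bdd _) (e5.trans (add_le_add d1 d2)) (abs_nonneg _) (by norm_num)
      _ = (ε / 2) * Q := by ring
  have hfin := int_of_blocks hFm hFb hQ (by positivity : (0 : ℝ) ≤ ε / 2) hblock hT0.le
  rw [hsub, div_div, abs_div, abs_of_pos hT0, div_le_iff₀ hT0]
  refine hfin.trans ?_
  rw [div_le_iff₀ hε] at hT
  linarith

end H44TX
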