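import Mathlib

/-! Denjoy-Koksma sums of Lipschitz periodic functions along perturbed rotations. -/

open Finset MeasureTheory

namespace H44TX

theorem exists_good_rat {b : ℝ} (hb : Irrational b) (Q : ℕ) :
    ∃ r : ℚ, Q < r.den ∧ |b - r| ≤ 1 / (r.den : ℝ) ^ 2 := by
  have hpos : ∀ k ∈ Finset.Icc 1 Q, 0 < |(k : ℝ) * b - round ((k : ℝ) * b)| := by
    intro k hk
    have hk1 : 1 ≤ k := (Finset.mem_Icc.1 hk).1
    have hirr : Irrational ((k : ℝ) * b) := hb.natCast_mul (by omega)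
    exact abs_pos.2 (sub_ne_zero.2 (hirr.ne_int _))
  have hev : ∀ᶠ n : ℕ in Filter.atTop, ∀ k ∈ Finset.Icc 1 Q,
      1 / ((n : ℝ) + 1) < |(k : ℝ) * b - round ((k : ℝ) * b)| := by
    rw [Filter.eventually_all_finset]
    intro k hk
    exact (tendsto_one_div_add_atTop_nhds_zero_nat (𝕜 := ℝ)).eventually_lt_const (hpos k hk)
  obtain ⟨n, hn, hn0⟩ := (hev.and (Filter.eventually_gt_atTop 0)).exists
  obtain ⟨r, hr, hrn⟩ := Real.exists_rat_abs_sub_le_and_den_le b hn0
  have hd0 : (0 : ℝ) < r.den := by exact_mod_cast r.pos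
  have hn1 : (0 : ℝ) < (n : ℝ) + 1 := by positivity
  refine ⟨r, ?_, ?_⟩
  · by_contra hcon
    push Not at hcon
    have h1 := hn r.den (Finset.mem_Icc.2 ⟨r.pos, hcon⟩)
    have h2 : |(r.den : ℝ) * b - round ((r.den : ℝ) * b)| ≤ |(r.den : ℝ) * b - r.num| :=
      round_le _ _
    have h3 : (r.den : ℝ) * b - r.num = r.den * (b - r) := by
      have : (r : ℝ) = r.num / r.den := Rat.cast_def r
      rw [this]; field_simp
    rw [h3, abs_mul, abs_of_pos hd0] at h2
    have h4 : (r.den : ℝ) * |b - r| ≤ 1 / ((n : ℝ) + 1) := by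
      calc (r.den : ℝ) * |b - r| ≤ r.den * (1 / (((n : ℝ) + 1) * r.den)) :=
            mul_le_mul_of_nonneg_left hr hd0.le
        _ = 1 / ((n : ℝ) + 1) := by field_simp
    linarith
  · refine hr.trans ?_
    rw [sq]
    apply one_div_le_one_div_of_le (mul_pos hd0 hd0)
    apply mul_le_mul_of_nonneg_right _ hd0.le
    have : (r.den : ℝ) ≤ n := by exact_mod_cast hrn
    linarith

theorem sum_translates (φ : ℝ → ℝ) (K : NNReal) (hK : LipschitzWith K φ) (q : ℕ) (hq : 0 < q)
    (x : ℝ) : |∑ m ∈ range q, φ (x + m / q) - q * ∫ t in x..(x + 1), φ t| ≤ K := by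
  have hq0 : (0 : ℝ) < q := by exact_mod_cast hq
  have hc : Continuous φ := hK.continuous
  have hsum : ∫ t in x..(x + 1), φ t
      = ∑ m ∈ range q, ∫ t in (x + (m : ℕ) / q)..(x + ((m + 1 : ℕ) : ℝ) / q), φ t := by
    rw [intervalIntegral.sum_integral_adjacent_intervals (a := fun m : ℕ => x + (m : ℝ) / q)
      (fun k _ => hc.intervalIntegrable _ _)]
    congr 1
    · simp
    · rw [div_self hq0.ne']
  have hterm : ∀ m ∈ range q, |φ (x + m / q)
      - q * ∫ t in (x + (m : ℕ) / q)..(x + ((m + 1 : ℕ) : ℝ) / q), φ t| ≤ K / q := by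
    intro m _
    have hlen : (x + ((m + 1 : ℕ) : ℝ) / q) - (x + (m : ℝ) / q) = 1 / q := by
      push_cast; ring
    have h1 : φ (x + m / q) = q * ∫ t in (x + (m : ℕ) / q)..(x + ((m + 1 : ℕ) : ℝ) / q),
        φ (x + m / q) := by
      rw [intervalIntegral.integral_const, hlen, smul_eq_mul]; field_simp
    have h2 : φ (x + m / q) - q * ∫ t in (x + (m : ℕ) / q)..(x + ((m + 1 : ℕ) : ℝ) / q), φ t
        = q * ∫ t in (x + (m : ℕ) / q)..(x + ((m + 1 : ℕ) : ℝ) / q),
          (φ (x + m / q) - φ t) := by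
      rw [intervalIntegral.integral_sub (by simp) (hc.intervalIntegrable _ _), mul_sub, ← h1]
    rw [h2, abs_mul, abs_of_pos hq0]
    have h3 : ‖∫ t in (x + (m : ℕ) / q)..(x + ((m + 1 : ℕ) : ℝ) / q), (φ (x + m / q) - φ t)‖
        ≤ (K / q) * |(x + ((m + 1 : ℕ) : ℝ) / q) - (x + (m : ℝ) / q)| := by
      apply intervalIntegral.norm_integral_le_of_norm_le_const
      intro t ht
      rw [Set.uIoc_of_le (by
        have : (0 : ℝ) < 1 / q := by positivity
        linarith)] at ht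
      have h4 := hK.dist_le_mul (x + m / q) t
      rw [Real.dist_eq, Real.dist_eq] at h4
      rw [Real.norm_eq_abs]
      refine h4.trans ?_
      have hab : |x + (m : ℝ) / q - t| ≤ 1 / q := by
        have ht1 := ht.1
        have ht2 := ht.2
        have : (0 : ℝ) < 1 / q := by positivity
        rw [abs_le]
        constructor <;> linarith
      calc (K : ℝ) * |x + (m : ℝ) / q - t| ≤ K * (1 / q) := mul_le_mul_of_nonneg_left hab K.2
        _ = K / q := by ring
    rw [hlen, Real.norm_eq_abs, abs_of_pos (by positivity : (0 : ℝ) < 1 / q)] at h3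
    calc (q : ℝ) * |∫ t in (x + (m : ℕ) / q)..(x + ((m + 1 : ℕ) : ℝ) / q), (φ (x + m / q) - φ t)|
        ≤ q * (K / q * (1 / q)) := mul_le_mul_of_nonneg_left h3 hq0.le
      _ = K / q := by field_simp
  rw [hsum, Finset.mul_sum, ← Finset.sum_sub_distrib]
  refine (Finset.abs_sum_le_sum_abs _ _).trans ((Finset.sum_le_sum hterm).trans ?_)
  rw [Finset.sum_const, card_range, nsmul_eq_mul]
  apply le_of_eq
  field_simp

theorem per_int {φ : ℝ → ℝ} (hper : Function.Periodic φ 1) (x : ℝ) (n : ℤ) :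
    φ (x + n) = φ x := by
  have := hper.int_mul n x
  simpa using this

theorem sum_coprime (φ : ℝ → ℝ) (hper : Function.Periodic φ 1) (p : ℤ) (q : ℕ) (hq : 0 < q)
    (hpq : p.natAbs.Coprime q) (x : ℝ) :
    ∑ m ∈ range q, φ (x + p / q * m) = ∑ m ∈ range q, φ (x + m / q) := by
  have hq0 : (0 : ℝ) < q := by exact_mod_cast hq
  have hqz : (0 : ℤ) < q := by exact_mod_cast hq
  let s : ℕ → ℕ := fun m => ((p * m) % (q : ℤ)).toNat
  have hs : ∀ m, ((s m : ℕ) : ℤ) = (p * m) % (q : ℤ) := fun m =>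
    Int.toNat_of_nonneg (Int.emod_nonneg _ hqz.ne')
  have hinj : Set.InjOn s (range q : Set ℕ) := by
    intro a ha b hb hab
    have ha' : a < q := by simpa using ha
    have hb' : b < q := by simpa using hb
    have h1 : (p * a) % (q : ℤ) = (p * b) % (q : ℤ) := by rw [← hs, ← hs, hab]
    have h2 : (q : ℤ) ∣ p * a - p * b :=
      Int.ModEq.dvd (show p * b ≡ p * a [ZMOD q] from h1.symm)
    rw [← mul_sub] at h2
    have hcop : IsCoprime (q : ℤ) p := by
      rw [Int.isCoprime_iff_gcd_eq_one, Int.gcd_comm]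
      simpa [Int.gcd] using hpq
    have h3 : (q : ℤ) ∣ (a : ℤ) - b := hcop.dvd_of_dvd_mul_left h2
    have h4 : (a : ℤ) - b = 0 := by
      apply Int.eq_zero_of_abs_lt_dvd h3
      rw [abs_lt]; constructor <;> omega
    omega
  have himg : (range q).image s = range q := by
    apply Finset.eq_of_subset_of_card_le
    · intro y hy
      obtain ⟨m, -, rfl⟩ := Finset.mem_image.1 hy
      rw [Finset.mem_range]
      have := Int.emod_lt_of_pos (p * m) hqz
      rw [← hs m] at this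
      exact_mod_cast this
    · rw [Finset.card_image_of_injOn hinj]
  have hfin : ∑ m ∈ range q, φ (x + m / q) = ∑ m ∈ range q, φ (x + (s m : ℕ) / q) := by
    conv_lhs => rw [← himg]
    rw [Finset.sum_image hinj]
  rw [hfin]
  apply Finset.sum_congr rfl
  intro m _
  have h5 : (p * m : ℤ) = q * ((p * m) / q) + (p * m) % q := (Int.mul_ediv_add_emod _ _).symm
  have h6 : ((p : ℝ) * m) = q * (((p * m) / q : ℤ) : ℝ) + ((s m : ℕ) : ℝ) := by
    have h7 : ((p * m : ℤ) : ℝ) = ((q * ((p * m) / q) + (s m : ℕ) : ℤ) : ℝ) := by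
      rw [hs]; exact_mod_cast h5
    push_cast at h7
    exact h7
  have h8 : x + p / q * m = (x + (s m : ℕ) / q) + (((p * m) / q : ℤ) : ℝ) := by
    have : (p : ℝ) / q * m = (p * m) / q := by ring
    rw [this, h6]; field_simp; ring
  rw [h8, per_int hper]

/-- Denjoy-Koksma for a Lipschitz function and a perturbed rotation by a rational. -/
theorem dk_rat (φ : ℝ → ℝ) (hper : Function.Periodic φ 1) (K : NNReal) (hK : LipschitzWith K φ)
    (r : ℚ) (c : ℝ) (g : ℕ → ℝ)
    (hg : ∀ m < r.den, |g m - g 0 - r * m| ≤ c / r.den) :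
    |∑ m ∈ range r.den, φ (g m) - r.den * ∫ t in (0 : ℝ)..1, φ t| ≤ K * (1 + c) := by
  have hq0 : (0 : ℝ) < r.den := by exact_mod_cast r.pos
  have h1 : |∑ m ∈ range r.den, φ (g m) - ∑ m ∈ range r.den, φ (g 0 + r * m)| ≤ K * c := by
    rw [← Finset.sum_sub_distrib]
    refine (Finset.abs_sum_le_sum_abs _ _).trans ?_
    have : ∀ m ∈ range r.den, |φ (g m) - φ (g 0 + r * m)| ≤ K * (c / r.den) := by
      intro m hm
      have h4 := hK.dist_le_mul (g m) (g 0 + r * m)
      rw [Real.dist_eq, Real.dist_eq] at h4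
      refine h4.trans (mul_le_mul_of_nonneg_left ?_ K.2)
      have := hg m (Finset.mem_range.1 hm)
      rwa [← sub_sub]
    refine (Finset.sum_le_sum this).trans ?_
    rw [Finset.sum_const, card_range, nsmul_eq_mul]
    apply le_of_eq
    field_simp
  have h2 : ∑ m ∈ range r.den, φ (g 0 + r * m) = ∑ m ∈ range r.den, φ (g 0 + m / r.den) := by
    have h3 := sum_coprime φ hper r.num r.den r.pos r.reduced (g 0)
    have h4 : (r : ℝ) = r.num / r.den := Rat.cast_def r
    rw [← h3]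
    apply Finset.sum_congr rfl
    intro m _
    rw [h4]
  have h3 := sum_translates φ K hK r.den r.pos (g 0)
  have h4 : ∫ t in (g 0)..(g 0 + 1), φ t = ∫ t in (0 : ℝ)..1, φ t := by
    have := hper.intervalIntegral_add_eq (g 0) 0
    simpa using this
  rw [h4, ← h2] at h3
  calc |∑ m ∈ range r.den, φ (g m) - r.den * ∫ t in (0 : ℝ)..1, φ t|
      = |(∑ m ∈ range r.den, φ (g m) - ∑ m ∈ range r.den, φ (g 0 + r * m))
        + (∑ m ∈ range r.den, φ (g 0 + r * m) - r.den * ∫ t in (0 : ℝ)..1, φ t)| := by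
        congr 1; ring
    _ ≤ K * c + K := (abs_add_le _ _).trans (add_le_add h1 h3)
    _ = K * (1 + c) := by ring

/-- Uniform equidistribution along perturbed irrational rotations. -/
theorem dk_irr (φ : ℝ → ℝ) (hper : Function.Periodic φ 1) (K : NNReal) (hK : LipschitzWith K φ)
    {b : ℝ} (hb : Irrational b) {ε : ℝ} (hε : 0 < ε) :
    ∃ Q : ℕ, 0 < Q ∧ ∃ τ : ℝ, 0 < τ ∧ ∀ g : ℕ → ℝ, (∀ m < Q, |g m - g 0 - b * m| ≤ τ) →
      |∑ m ∈ range Q, φ (g m) - Q * ∫ t in (0 : ℝ)..1, φ t| ≤ ε * Q := by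
  obtain ⟨N, hN⟩ := exists_nat_gt (K * 3 / ε)
  obtain ⟨r, hr, hbr⟩ := exists_good_rat hb N
  have hq0 : (0 : ℝ) < r.den := by exact_mod_cast r.pos
  refine ⟨r.den, r.pos, 1 / r.den, by positivity, fun g hg => ?_⟩
  have h1 := dk_rat φ hper K hK r 2 g (by
    intro m hm
    have hm' : (m : ℝ) ≤ r.den := by exact_mod_cast hm.le
    have h2 := hg m hm
    have h3 : |(b - r) * m| ≤ 1 / r.den := by
      rw [abs_mul, abs_of_nonneg (by positivity : (0 : ℝ) ≤ m)]
      calc |b - r| * m ≤ (1 / (r.den : ℝ) ^ 2) * r.den :=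
            mul_le_mul hbr hm' (by positivity) (by positivity)
        _ = 1 / r.den := by field_simp
    have h4 : g m - g 0 - r * m = (g m - g 0 - b * m) + (b - r) * m := by ring
    rw [h4]
    refine (abs_add_le _ _).trans ((add_le_add h2 h3).trans (le_of_eq ?_))
    ring)
  refine h1.trans ?_
  have h5 : (N : ℝ) < r.den := by exact_mod_cast hr
  have h6 : K * 3 / ε < r.den := hN.trans h5
  rw [div_lt_iff₀ hε] at h6
  have h7 : (K : ℝ) * (1 + 2) = K * 3 := by ring
  rw [h7]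
  linarith

end H44TX
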