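import Pool.Agent.Helper44.TX.Block

/-! Small perturbations of affine maps. -/

open Finset MeasureTheory

namespace H44TX

theorem IsLift.add_nat {s : ℝ → ℝ} (hs : IsLift s) (x : ℝ) (n : ℕ) : s (x + n) = s x + n := by
  induction n with
  | zero => simp
  | succ n ih =>
    have : x + ((n + 1 : ℕ) : ℝ) = (x + n) + 1 := by push_cast; ring
    rw [this, hs.add_one, ih]; push_cast; ring

/-- The average of the oscillation of a lift. -/
theorem lift_avg {s : ℝ → ℝ} (hs : IsLift s) (α κ ℓ τ : ℝ) (hκ : 0 < κ) (hℓ : 0 < ℓ)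
    (h1 : 1 ≤ κ * ℓ) (hτ : 0 ≤ τ) :
    (∫ y in (0 : ℝ)..ℓ, (s (α + κ * y + τ) - s (α + κ * y - τ))) / ℓ ≤ 4 * τ := by
  have hT : 0 < κ * ℓ := by positivity
  let F : ℝ → ℝ := fun t => s (α + t + τ) - s (α + t - τ)
  have hI1 : ∀ c a b : ℝ, IntervalIntegrable (fun t => s (t + c)) volume a b := by
    intro c a b
    have hm : Monotone fun t => s (t + c) := fun x y hxy => hs.mono (by linarith)
    exact hm.intervalIntegrable
  have hF : ∀ t, F t = s (t + (α + τ)) - s (t + (α - τ)) := by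
    intro t
    simp only [F]
    congr 1 <;> congr 1 <;> ring
  have hI : ∀ a b : ℝ, IntervalIntegrable F volume a b := by
    intro a b
    have := (hI1 (α + τ) a b).sub (hI1 (α - τ) a b)
    refine this.congr ?_
    intro t _
    exact (hF t).symm
  have hF0 : ∀ t, 0 ≤ F t := fun t => sub_nonneg.2 (hs.mono (by linarith))
  have hFp : Function.Periodic F 1 := by
    intro t
    simp only [F]
    have e1 : α + (t + 1) + τ = (α + t + τ) + 1 := by ring
    have e2 : α + (t + 1) - τ = (α + t - τ) + 1 := by ring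
    rw [e1, e2, hs.add_one, hs.add_one]
    ring
  have hone : ∫ t in (0 : ℝ)..1, F t = 2 * τ := by
    have e1 : ∫ t in (0 : ℝ)..1, F t
        = (∫ t in (0 : ℝ)..1, s (t + (α + τ))) - ∫ t in (0 : ℝ)..1, s (t + (α - τ)) := by
      rw [← intervalIntegral.integral_sub (hI1 _ _ _) (hI1 _ _ _)]
      exact intervalIntegral.integral_congr fun t _ => hF t
    rw [e1, intervalIntegral.integral_comp_add_right, intervalIntegral.integral_comp_add_right]
    have hJ : ∀ a b : ℝ, IntervalIntegrable s volume a b := fun a b => hs.intInt a b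
    have e2 : ∫ t in (0 + (α + τ))..(1 + (α + τ)), s t
        = (∫ t in (0 + (α - τ))..(1 + (α - τ)), s t)
          + (∫ t in (1 + (α - τ))..(1 + (α + τ)), s t)
          - ∫ t in (0 + (α - τ))..(0 + (α + τ)), s t := by
      have a1 := intervalIntegral.integral_add_adjacent_intervals
        (hJ (0 + (α - τ)) (1 + (α - τ))) (hJ (1 + (α - τ)) (1 + (α + τ)))
      have a2 := intervalIntegral.integral_add_adjacent_intervals
        (hJ (0 + (α - τ)) (0 + (α + τ))) (hJ (0 + (α + τ)) (1 + (α + τ)))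
      linarith
    have e3 : ∫ t in (1 + (α - τ))..(1 + (α + τ)), s t
        = (∫ t in (α - τ)..(α + τ), s t) + 2 * τ := by
      have a1 : ∫ t in (α - τ)..(α + τ), s (t + 1) = ∫ t in (α - τ + 1)..(α + τ + 1), s t :=
        intervalIntegral.integral_comp_add_right (fun t => s t) 1
      have a2 : ∫ t in (α - τ)..(α + τ), s (t + 1) = (∫ t in (α - τ)..(α + τ), s t) + 2 * τ := by
        have : ∀ t, s (t + 1) = s t + 1 := hs.add_one
        simp only [this]
        rw [intervalIntegral.integral_add (hJ _ _) intervalIntegrable_const]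
        simp
        ring
      rw [← a2, a1]
      congr 1 <;> ring
    rw [e2, e3]
    simp only [zero_add]
    ring
  have hsub : ∫ y in (0 : ℝ)..ℓ, (s (α + κ * y + τ) - s (α + κ * y - τ))
      = (∫ t in (0 : ℝ)..(κ * ℓ), F t) / κ := by
    have := intervalIntegral.integral_comp_mul_left (a := 0) (b := ℓ) (fun t => F t) hκ.ne'
    simp only [mul_zero, smul_eq_mul] at this
    rw [div_eq_inv_mul, ← this]
  have hn : ∀ n : ℕ, ∫ t in (0 : ℝ)..n, F t = n * (2 * τ) := by
    intro n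
    induction n with
    | zero => simp
    | succ n ih =>
      have h5 : ∫ t in (0 : ℝ)..((n + 1 : ℕ) : ℝ), F t
          = (∫ t in (0 : ℝ)..n, F t) + ∫ t in (n : ℝ)..(n + 1), F t := by
        rw [intervalIntegral.integral_add_adjacent_intervals (hI _ _) (hI _ _)]
        congr 1
        push_cast; ring
      have h6 := hFp.intervalIntegral_add_eq (n : ℝ) 0
      rw [zero_add, hone] at h6
      rw [h5, ih, h6]
      push_cast; ring
  set N : ℕ := ⌈κ * ℓ⌉₊ with hN
  have hN1 : κ * ℓ ≤ N := Nat.le_ceil _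
  have hN2 : (N : ℝ) < κ * ℓ + 1 := Nat.ceil_lt_add_one hT.le
  have h3 : ∫ t in (0 : ℝ)..(κ * ℓ), F t ≤ N * (2 * τ) := by
    rw [← hn N, ← intervalIntegral.integral_add_adjacent_intervals (hI 0 (κ * ℓ)) (hI (κ * ℓ) N)]
    have : 0 ≤ ∫ t in (κ * ℓ)..(N : ℝ), F t := intervalIntegral.integral_nonneg hN1
      (fun x _ => hF0 x)
    linarith
  rw [hsub, div_div, div_le_iff₀ hT]
  refine h3.trans ?_
  nlinarith

/-- A perturbation of an affine map changes the averages little. -/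
theorem pert_avg {φ : ℝ → ℝ} (h : IsBV φ) {u : ℝ → ℝ} (α κ ℓ τ : ℝ)
    (hu : IntervalIntegrable (fun y => φ (u y)) volume 0 ℓ)
    (hκ : 0 < κ) (hℓ : 0 < ℓ) (h1 : 1 ≤ κ * ℓ) (hτ : 0 ≤ τ)
    (hclose : ∀ y ∈ Set.Icc 0 ℓ, |u y - (α + κ * y)| ≤ τ) :
    (∫ y in (0 : ℝ)..ℓ, |φ (u y) - φ (α + κ * y)|) / ℓ ≤ 8 * τ := by
  obtain ⟨s₁, s₂, l1, l2, c, hc⟩ := h.ex
  have a1 := lift_avg l1 α κ ℓ τ hκ hℓ h1 hτ
  have a2 := lift_avg l2 α κ ℓ τ hκ hℓ h1 hτ
  have hmaff : ∀ s : ℝ → ℝ, IsLift s → ∀ c : ℝ, IntervalIntegrable (fun y => s (α + κ * y + c))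
      volume 0 ℓ := by
    intro s hs c
    have hm : Monotone fun y => s (α + κ * y + c) := fun x y hxy =>
      hs.mono (by nlinarith)
    exact hm.intervalIntegrable
  have hD : ∀ s : ℝ → ℝ, IsLift s → IntervalIntegrable
      (fun y => s (α + κ * y + τ) - s (α + κ * y - τ)) volume 0 ℓ := by
    intro s hs
    have := (hmaff s hs τ).sub (hmaff s hs (-τ))
    exact this
  have hle : ∫ y in (0 : ℝ)..ℓ, |φ (u y) - φ (α + κ * y)|
      ≤ ∫ y in (0 : ℝ)..ℓ, ((s₁ (α + κ * y + τ) - s₁ (α + κ * y - τ))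
        + (s₂ (α + κ * y + τ) - s₂ (α + κ * y - τ))) := by
    apply intervalIntegral.integral_mono_on hℓ.le _ ((hD s₁ l1).add (hD s₂ l2))
    · intro y hy
      have hcl := abs_le.1 (hclose y hy)
      have m1 := l1.mono (show α + κ * y - τ ≤ u y by linarith [hcl.1])
      have m2 := l1.mono (show u y ≤ α + κ * y + τ by linarith [hcl.2])
      have m3 := l1.mono (show α + κ * y - τ ≤ α + κ * y by linarith)
      have m4 := l1.mono (show α + κ * y ≤ α + κ * y + τ by linarith)
      have n1 := l2.mono (show α + κ * y - τ ≤ u y by linarith [hcl.1])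
      have n2 := l2.mono (show u y ≤ α + κ * y + τ by linarith [hcl.2])
      have n3 := l2.mono (show α + κ * y - τ ≤ α + κ * y by linarith)
      have n4 := l2.mono (show α + κ * y ≤ α + κ * y + τ by linarith)
      rw [hc, hc, abs_le]
      constructor <;> linarith
    · exact (hu.sub (intInt_of_bdd (meas_aff h α κ) (C := 1) (fun x => h.bdd _) _ _)).abs
  rw [intervalIntegral.integral_add (hD s₁ l1) (hD s₂ l2)] at hle
  rw [div_le_iff₀ hℓ] at a1 a2 ⊢
  linarith

/-- The mean of a function along an affine map. -/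
theorem mean_bound {φ : ℝ → ℝ} (h : IsBV φ) (α κ ℓ : ℝ) (hκ : 0 < κ) (hℓ : 0 < ℓ) :
    |(∫ y in (0 : ℝ)..ℓ, φ (α + κ * y)) / ℓ| ≤ 1 / (κ * ℓ) := by
  have hT : 0 < κ * ℓ := by positivity
  have hI : ∀ a b : ℝ, IntervalIntegrable (fun t => φ (α + t)) volume a b := fun a b =>
    intInt_of_bdd (h.meas.comp (measurable_id.const_add α)) (C := 1) (fun x => h.bdd _) a b
  have hsub : ∫ y in (0 : ℝ)..ℓ, φ (α + κ * y) = (∫ t in (0 : ℝ)..(κ * ℓ), φ (α + t)) / κ := by
    have := intervalIntegral.integral_comp_mul_left (a := 0) (b := ℓ) (fun t => φ (α + t)) hκ.ne'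
    simp only [mul_zero, smul_eq_mul] at this
    rw [div_eq_inv_mul, ← this]
  have hn : ∀ n : ℕ, ∫ t in (0 : ℝ)..n, φ (α + t) = 0 := by
    intro n
    induction n with
    | zero => simp
    | succ n ih =>
      have h5 : ∫ t in (0 : ℝ)..((n + 1 : ℕ) : ℝ), φ (α + t)
          = (∫ t in (0 : ℝ)..n, φ (α + t)) + ∫ t in (n : ℝ)..(n + 1), φ (α + t) := by
        rw [intervalIntegral.integral_add_adjacent_intervals (hI _ _) (hI _ _)]
        congr 1
        push_cast; ring
      rw [h5, ih, h.mean' α n, zero_add]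
  let n : ℕ := ⌊κ * ℓ⌋₊
  have hn1 : (n : ℝ) ≤ κ * ℓ := Nat.floor_le hT.le
  have hn2 : κ * ℓ < n + 1 := Nat.lt_floor_add_one _
  have h3 : ∫ t in (0 : ℝ)..(κ * ℓ), φ (α + t) = ∫ t in (n : ℝ)..(κ * ℓ), φ (α + t) := by
    rw [← intervalIntegral.integral_add_adjacent_intervals (hI 0 n) (hI n (κ * ℓ)), hn n, zero_add]
  have h4 := abs_int_le (f := fun t => φ (α + t)) (C := 1) (fun x => h.bdd _) hn1
  rw [hsub, h3, div_div, abs_div, abs_of_pos hT]
  apply div_le_div_of_nonneg_right _ hT.le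
  linarith

end H44TX
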